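import Pool.Agent.Lib.MP_66ef6b_al.Final

/-! # MP_66ef6b_al: reduction of the question to finite almost simple groups -/

set_option autoImplicit false

namespace Pool.Agent.Results.MP_66ef6b_al.AlmostSimpleReduction

open Pool.Agent.Lib.MP66ef6b

universe u

theorem result (G : Type u) [Group G] [IsSimpleGroup G] [Infinite G] (hG : LocFin G) :
    (FiniteType G ↔ AffineType G ∨ AlmostSimpleType G) ∧
    ((∃ E : Subgroup G, Finite E ∧ NotInOut E) →
      (FiniteType G ↔ AffineType G ∨ SimpleType G)) := by
  obtain ⟨h1, h2, -⟩ := main G hG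
  exact ⟨h1, fun h => by rw [h1, h2 h]⟩

end Pool.Agent.Results.MP_66ef6b_al.AlmostSimpleReduction
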