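import Pool.Agent.Lib.MP_66ef6b_al.CL.MainG
import Pool.Agent.Lib.MP_66ef6b_al.CL.Stmt

/-! # MP_66ef6b_al: simple locally finite groups of finite type are finitary or of alternating type -/

set_option autoImplicit false

namespace Pool.Agent.Results.MP_66ef6b_al.FinitaryOrAlternating

open Pool.Agent.Lib.MP66ef6b Pool.Agent.Lib.MP66ef6b.CL

universe u

/-- Let `G` be an infinite simple locally finite group which has a finite subgroup `E₀` such that
every finite subgroup of `G` lies in a finite subgroup `K` with the following property: every
non-abelian composition factor `T` of `K` such that `E₀` embeds in `Aut(T)` is an alternating group,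
a group `PSL_n(q)` or a symplectic, unitary or orthogonal group of polar rank at least three. Then
`G` is of finite type if and only if it is a finitary linear group over a prime field or of
alternating type. -/
theorem result (G : Type u) [Group G] [IsSimpleGroup G] [Infinite G] (hG : LocFin G)
    (hA : LocAltClassical G) : FiniteType G ↔ FinLin G ∨ AltType G :=
  main3 G hG hA.locAC

end Pool.Agent.Results.MP_66ef6b_al.FinitaryOrAlternating
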